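import Mathlib

set_option autoImplicit false

/-!
# Aggregation queries on R-trees can be forced to visit a linear number of nodes
-/

namespace Pool.Agent.Results.MP_4b5396_lc.AggregationLinear

open Finset

/-- A closed axis-parallel hypercube in `ℝ^d` (side `0` is a point). -/
structure Cube (d : ℕ) where
  /-- the corner with the smallest coordinates -/
  corner : Fin d → ℝ
  /-- the side length -/
  side : ℝ
  side_nonneg : 0 ≤ side

/-- The points of a hypercube. -/
def Cube.toSet {d : ℕ} (o : Cube d) : Set (Fin d → ℝ) :=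
  Set.Icc o.corner (fun i => o.corner i + o.side)

/-- An R-tree on the set `S` of hypercubes with block size `B`; `Θ(B)` means between `c₁ B` and
`c₂ B`.  The nodes at depth `height` are the leaves; all other nodes have children. -/
structure RTree {d : ℕ} (S : Finset (Cube d)) (B : ℕ) (c₁ c₂ : ℝ) where
  /-- the nodes -/
  V : Type
  fin : Fintype V
  dec : DecidableEq V
  /-- the root -/
  root : V
  /-- the parent of a node (the value at the root is irrelevant) -/
  parent : V → V
  /-- the depth of a node -/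
  depth : V → ℕ
  /-- the common depth of the leaves -/
  height : ℕ
  depth_eq_zero : ∀ v, depth v = 0 ↔ v = root
  depth_parent : ∀ v, v ≠ root → depth v = depth (parent v) + 1
  depth_le : ∀ v, depth v ≤ height
  /-- the leaf in which an object of `S` is stored -/
  leafOf : Cube d → V
  leafOf_depth : ∀ o ∈ S, depth (leafOf o) = height
  leaf_upper : ∀ v, depth v = height →
    ((S.filter fun o => leafOf o = v).card : ℝ) ≤ c₂ * B
  leaf_lower : ∀ v, depth v = height → v ≠ root →
    c₁ * B ≤ ((S.filter fun o => leafOf o = v).card : ℝ)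
  node_upper : ∀ v, depth v < height →
    ((univ.filter fun u => u ≠ root ∧ parent u = v).card : ℝ) ≤ c₂ * B
  node_lower : ∀ v, depth v < height → v ≠ root →
    c₁ * B ≤ ((univ.filter fun u => u ≠ root ∧ parent u = v).card : ℝ)
  root_lower : depth root < height → ∃ u, u ≠ root ∧ parent u = root

namespace RTree

variable {d : ℕ} {S : Finset (Cube d)} {B : ℕ} {c₁ c₂ : ℝ}

/-- `v` is `u` or an ancestor of `u`. -/
def IsAnc (T : RTree S B c₁ c₂) (v u : T.V) : Prop :=
  ∃ k ≤ T.depth u, T.parent^[k] u = v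

/-- `R(v)`: the minimal axis-parallel bounding box of the objects in the subtree of `v`, i.e. the
intersection of all axis-parallel boxes containing these objects. -/
def bbox (T : RTree S B c₁ c₂) (v : T.V) : Set (Fin d → ℝ) :=
  {x | ∀ p q : Fin d → ℝ, (∀ o ∈ S, T.IsAnc v (T.leafOf o) → o.toSet ⊆ Set.Icc p q) →
    x ∈ Set.Icc p q}

/-- The nodes visited by the aggregation query `Q`: the root, and every child `v` of a visited node
with `R(v) ∩ Q ≠ ∅` and not `R(v) ⊆ Q`. -/
inductive Visited (T : RTree S B c₁ c₂) (Q : Set (Fin d → ℝ)) : T.V → Prop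
  | root : Visited T Q T.root
  | child (v : T.V) : v ≠ T.root → Visited T Q (T.parent v) → (T.bbox v ∩ Q).Nonempty →
      ¬ T.bbox v ⊆ Q → Visited T Q v

/-- The query cost: the number of visited nodes. -/
noncomputable def cost (T : RTree S B c₁ c₂) (Q : Set (Fin d → ℝ)) : ℕ :=
  Set.ncard {v | T.Visited Q v}

theorem depth_iterate (T : RTree S B c₁ c₂) (k : ℕ) (u : T.V) (hk : k ≤ T.depth u) :
    T.depth (T.parent^[k] u) = T.depth u - k := by
  induction k with
  | zero => simp
  | succ k ih =>
    rw [Function.iterate_succ_apply']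
    have h1 := ih (by omega)
    have h2 : T.parent^[k] u ≠ T.root := by
      intro h
      rw [← T.depth_eq_zero] at h
      omega
    have h3 := T.depth_parent _ h2
    omega

theorem visited_of_anc (T : RTree S B c₁ c₂) (Q : Set (Fin d → ℝ))
    (hQ : ∀ v, (∃ o ∈ S, T.IsAnc v (T.leafOf o)) → (T.bbox v ∩ Q).Nonempty ∧ ¬ T.bbox v ⊆ Q) :
    ∀ n : ℕ, ∀ v, T.depth v = n → (∃ o ∈ S, T.IsAnc v (T.leafOf o)) → T.Visited Q v := by
  intro n
  induction n with
  | zero =>
    intro v hv _
    rw [T.depth_eq_zero] at hv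
    subst hv
    exact Visited.root
  | succ n ih =>
    intro v hv hex
    have hne : v ≠ T.root := by
      intro h
      rw [← T.depth_eq_zero] at h
      omega
    obtain ⟨h1, h2⟩ := hQ v hex
    refine Visited.child v hne (ih _ ?_ ?_) h1 h2
    · have := T.depth_parent v hne
      omega
    · obtain ⟨o, ho, k, hk, hkv⟩ := hex
      refine ⟨o, ho, k + 1, ?_, ?_⟩
      · have := T.depth_iterate k _ hk
        rw [hkv] at this
        omega
      · rw [Function.iterate_succ_apply', hkv]

end RTree

/-- The nested cubes `[-(i+1), i+1]^d`. -/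
noncomputable def nested (d : ℕ) (i : ℕ) : Cube d where
  corner := fun _ => -((i : ℝ) + 1)
  side := 2 * ((i : ℝ) + 1)
  side_nonneg := by positivity

theorem nested_inj {d : ℕ} : Function.Injective (nested d) := by
  intro i j h
  have h1 := congrArg Cube.side h
  simp only [nested] at h1
  have h2 : (i : ℝ) = j := by linarith
  exact_mod_cast h2

theorem mem_nested {d : ℕ} (i : ℕ) {x : Fin d → ℝ} (hx : ∀ k, |x k| ≤ 1) :
    x ∈ (nested d i).toSet := by
  unfold Cube.toSet nested
  rw [Set.mem_Icc, Pi.le_def, Pi.le_def]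
  have hi : (0 : ℝ) ≤ i := by positivity
  constructor
  · intro k
    have := (abs_le.mp (hx k)).1
    simp only
    linarith
  · intro k
    have := (abs_le.mp (hx k)).2
    simp only
    linarith

/-- The set of the first `N` nested cubes. -/
noncomputable def nestedSet (d N : ℕ) : Finset (Cube d) := (range N).map ⟨nested d, nested_inj⟩

/-- The query box `[-1/2, 1/2]^d`. -/
def query (d : ℕ) : Set (Fin d → ℝ) := Set.Icc (fun _ => -(1 / 2)) (fun _ => 1 / 2)

theorem cost_ge {d N B : ℕ} (hd : 0 < d) {c₁ c₂ : ℝ} (T : RTree (nestedSet d N) B c₁ c₂) :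
    (N : ℝ) ≤ T.cost (query d) * (c₂ * B) := by
  classical
  have hfin := T.fin
  have hdec := T.dec
  have hQ : ∀ v, (∃ o ∈ nestedSet d N, T.IsAnc v (T.leafOf o)) →
      (T.bbox v ∩ query d).Nonempty ∧ ¬ T.bbox v ⊆ query d := by
    rintro v ⟨o, ho, hanc⟩
    have ho' : ∃ i, nested d i = o := by
      unfold nestedSet at ho
      rw [Finset.mem_map] at ho
      obtain ⟨i, _, hi⟩ := ho
      exact ⟨i, hi⟩
    obtain ⟨i, rfl⟩ := ho'
    have hmem : ∀ x : Fin d → ℝ, (∀ k, |x k| ≤ 1) → x ∈ T.bbox v := by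
      intro x hx p q hpq
      exact hpq _ ho hanc (mem_nested i hx)
    constructor
    · refine ⟨fun _ => 0, hmem _ (fun k => by simp), ?_⟩
      unfold query
      rw [Set.mem_Icc, Pi.le_def, Pi.le_def]
      constructor <;> intro k <;> norm_num
    · intro hsub
      have h1 := hsub (hmem (fun _ => 1) (fun k => by simp))
      unfold query at h1
      rw [Set.mem_Icc, Pi.le_def, Pi.le_def] at h1
      have := h1.2 ⟨0, hd⟩
      norm_num at this
  have hvis : ∀ o ∈ nestedSet d N, T.Visited (query d) (T.leafOf o) := fun o ho =>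
    T.visited_of_anc (query d) hQ _ _ rfl ⟨o, ho, 0, Nat.zero_le _, rfl⟩
  -- counting
  have hcard : (nestedSet d N).card = N := by unfold nestedSet; simp
  have h1 : ((nestedSet d N).card : ℝ) ≤ ((nestedSet d N).image T.leafOf).card * (c₂ * B) := by
    have h2 := Finset.card_eq_sum_card_image T.leafOf (nestedSet d N)
    have h3 : ((nestedSet d N).card : ℝ) =
        ∑ v ∈ (nestedSet d N).image T.leafOf,
          (((nestedSet d N).filter fun o => T.leafOf o = v).card : ℝ) := by
      exact_mod_cast h2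
    rw [h3]
    calc ∑ v ∈ (nestedSet d N).image T.leafOf,
          (((nestedSet d N).filter fun o => T.leafOf o = v).card : ℝ)
        ≤ ∑ _v ∈ (nestedSet d N).image T.leafOf, (c₂ * B) := by
          refine Finset.sum_le_sum fun v hv => ?_
          rw [Finset.mem_image] at hv
          obtain ⟨o, ho, rfl⟩ := hv
          have h := T.leaf_upper _ (T.leafOf_depth o ho)
          refine le_trans (le_of_eq ?_) h
          congr!
      _ = _ := by rw [Finset.sum_const, nsmul_eq_mul]
  have h4 : ((nestedSet d N).image T.leafOf).card ≤ T.cost (query d) := by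
    unfold RTree.cost
    rw [← Set.ncard_coe_finset]
    refine Set.ncard_le_ncard ?_ (Set.toFinite _)
    intro v hv
    rw [Finset.mem_coe, Finset.mem_image] at hv
    obtain ⟨o, ho, rfl⟩ := hv
    exact hvis o ho
  rw [hcard] at h1
  by_cases hN : N = 0
  · subst hN
    simp only [Nat.cast_zero]
    have hroot : 0 ≤ c₂ * (B : ℝ) := by
      by_cases hh : T.height = 0
      · have := T.leaf_upper T.root (by rw [(T.depth_eq_zero T.root).mpr rfl, hh])
        exact le_trans (by positivity) this
      · have := T.node_upper T.root (by rw [(T.depth_eq_zero T.root).mpr rfl]; omega)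
        exact le_trans (by positivity) this
    positivity
  · have hpos : 0 ≤ c₂ * (B : ℝ) := by
      by_contra hneg
      push Not at hneg
      have : ((nestedSet d N).image T.leafOf).card * (c₂ * (B : ℝ)) ≤ 0 :=
        mul_nonpos_of_nonneg_of_nonpos (by positivity) hneg.le
      have h5 : (0 : ℝ) < N := by exact_mod_cast Nat.pos_of_ne_zero hN
      linarith
    refine le_trans h1 (mul_le_mul_of_nonneg_right ?_ hpos)
    exact_mod_cast h4

/-- **No R-tree answers aggregation queries with `O((N/B)^(1-1/d))` node visits.**  For every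
`d ≥ 2`, all constants `0 < c₁ ≤ c₂` in `Θ(B)`, every block size `B ≥ 1` and every `C`, for all
sufficiently large `N` there are a set `S` of `N` hypercubes and a query box `[a,b]` such that, for
every R-tree on `S`, the query visits more than `C (N/B)^(1-1/d)` nodes, in fact at least
`N/(c₂ B)` nodes. -/
theorem result (d : ℕ) (hd : 2 ≤ d) (c₁ c₂ : ℝ) (hc₁ : 0 < c₁) (hc : c₁ ≤ c₂) (B : ℕ)
    (hB : 1 ≤ B) (C : ℝ) :
    ∃ N₀ : ℕ, ∀ N : ℕ, N₀ ≤ N → ∃ S : Finset (Cube d), S.card = N ∧
      ∃ a b : Fin d → ℝ, a ≤ b ∧ ∀ T : RTree S B c₁ c₂,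
        C * ((N : ℝ) / B) ^ (1 - 1 / (d : ℝ)) < T.cost (Set.Icc a b) ∧
        (N : ℝ) / (c₂ * B) ≤ T.cost (Set.Icc a b) := by
  have hd0 : (0 : ℝ) < d := by exact_mod_cast (by omega : 0 < d)
  have hB0 : (0 : ℝ) < B := by exact_mod_cast hB
  have hc2 : 0 < c₂ := lt_of_lt_of_le hc₁ hc
  have hlim : Filter.Tendsto (fun N : ℕ => ((N : ℝ) / B) ^ (1 / (d : ℝ))) Filter.atTop
      Filter.atTop := by
    refine (tendsto_rpow_atTop (by positivity)).comp ?_
    exact tendsto_natCast_atTop_atTop.atTop_div_const hB0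
  obtain ⟨N₁, hN₁⟩ := Filter.eventually_atTop.mp (hlim.eventually (Filter.eventually_gt_atTop (C * c₂)))
  refine ⟨max N₁ 1, fun N hN => ⟨nestedSet d N, by unfold nestedSet; simp, fun _ => -(1 / 2),
    fun _ => 1 / 2, by intro k; norm_num, fun T => ?_⟩⟩
  have h1 := cost_ge (by omega : 0 < d) T
  have hq : query d = Set.Icc (fun _ => -(1 / 2)) (fun _ => 1 / 2) := rfl
  rw [hq] at h1
  have hNpos : (0 : ℝ) < N := by
    have : 1 ≤ N := le_trans (le_max_right _ _) hN
    exact_mod_cast this
  have h2 : (N : ℝ) / (c₂ * B) ≤ T.cost (Set.Icc (fun _ => -(1 / 2)) (fun _ => 1 / 2)) := by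
    rw [div_le_iff₀ (by positivity)]
    exact h1
  refine ⟨lt_of_lt_of_le ?_ h2, h2⟩
  have h3 := hN₁ N (le_trans (le_max_left _ _) hN)
  have hx : (0 : ℝ) < (N : ℝ) / B := by positivity
  have h4 : ((N : ℝ) / B) ^ (1 - 1 / (d : ℝ)) * ((N : ℝ) / B) ^ (1 / (d : ℝ)) = (N : ℝ) / B := by
    rw [← Real.rpow_add hx]
    simp
  have h5 : 0 < ((N : ℝ) / B) ^ (1 - 1 / (d : ℝ)) := Real.rpow_pos_of_pos hx _
  have h6 : (N : ℝ) / (c₂ * B) = (N : ℝ) / B / c₂ := by field_simp
  rw [h6, lt_div_iff₀ hc2]
  conv_rhs => rw [← h4]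
  calc C * ((N : ℝ) / B) ^ (1 - 1 / (d : ℝ)) * c₂
      = ((N : ℝ) / B) ^ (1 - 1 / (d : ℝ)) * (C * c₂) := by ring
    _ < ((N : ℝ) / B) ^ (1 - 1 / (d : ℝ)) * ((N : ℝ) / B) ^ (1 / (d : ℝ)) :=
        mul_lt_mul_of_pos_left h3 h5

end Pool.Agent.Results.MP_4b5396_lc.AggregationLinear
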